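import Pool.Agent.MP_bd94e8_al.H83A.Kit

/-!
Passage to quotient rings.
-/

set_option autoImplicit false
set_option linter.unusedSectionVars false

namespace Pool.Agent.MP_bd94e8_al.H83A

open Module Function H83 H89

namespace QuotA

section
variable {A B : Type} [Ring A] [Ring B] {f : A →+* B} (hf : Surjective f) {M N : Type}
  [AddCommGroup M] [Module A M] [Module B M] [AddCommGroup N] [Module A N] [Module B N]
  (h : ∀ (a : A) (x : M), f a • x = a • x) (h' : ∀ (a : A) (x : N), f a • x = a • x)

/-- The submodule lattices agree. -/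
def oi : Submodule B M ≃o Submodule A M where
  toFun P := { P.toAddSubmonoid with smul_mem' := fun a x hx => h a x ▸ P.smul_mem (f a) hx }
  invFun P := { P.toAddSubmonoid with
    smul_mem' := fun b x hx => by
      obtain ⟨a, rfl⟩ := hf b
      rw [h]
      exact P.smul_mem a hx }
  left_inv _ := rfl
  right_inv _ := rfl
  map_rel_iff' := Iff.rfl

include hf h

theorem len_eq : length A M = length B M := by
  rw [← WithBot.coe_inj, coe_length, coe_length]
  exact (Order.krullDim_eq_of_orderIso (oi hf h)).symm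

theorem indec_iff : Indec A M ↔ Indec B M := by
  refine and_congr_right fun _ => ⟨fun H P Q hc => ?_, fun H P Q hc => ?_⟩
  · simpa only [map_eq_bot_iff] using H _ _ ((oi hf h).isCompl hc)
  · simpa only [map_eq_bot_iff] using H _ _ ((oi hf h).symm.isCompl hc)

theorem fin_iff : Module.Finite A M ↔ Module.Finite B M := by
  constructor
  · rintro ⟨s, hs⟩
    refine ⟨s, top_unique fun x _ => ?_⟩
    exact (Submodule.span_le (p := oi hf h (Submodule.span B s))).2 Submodule.subset_span
      (hs ▸ Submodule.mem_top)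
  · rintro ⟨s, hs⟩
    refine ⟨s, top_unique fun x _ => ?_⟩
    exact (Submodule.span_le (p := (oi hf h).symm (Submodule.span A s))).2 Submodule.subset_span
      (hs ▸ Submodule.mem_top)

include h'

theorem equiv_of (e : M ≃ₗ[A] N) : Nonempty (M ≃ₗ[B] N) :=
  ⟨{ e.toAddEquiv with
    map_smul' := fun b x => by
      obtain ⟨a, rfl⟩ := hf b
      rw [h, RingHom.id_apply, h']
      exact e.map_smul a x }⟩

end

variable {A : Type} [Ring A] (I : Ideal A) [I.IsTwoSided]

theorem conn (C : Type) [CommRing C] [Algebra C A] (H : ConnA C A) : ConnA C (A ⧸ I) := by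
  intro N _ _ _ _ _ _ _ hN i
  let _ : Module A N := Module.compHom N (Ideal.Quotient.mk I)
  have : SMulCommClass A (K C) N := ⟨fun a c x => smul_comm (Ideal.Quotient.mk I a) c x⟩
  have : IsScalarTower C A N := ⟨fun c a x => smul_assoc c (Ideal.Quotient.mk I a) x⟩
  obtain ⟨D, hD⟩ := H N hN i
  refine ⟨{ D.toAddHom with map_smul' := fun b x => ?_ }, hD⟩
  obtain ⟨a, rfl⟩ := Ideal.Quotient.mk_surjective b
  exact D.map_smul a x

theorem bf (H : BF A) : BF (A ⧸ I) := by
  intro c
  obtain ⟨n, X, _, _, h1, h2⟩ := (H c).mono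
    (q := fun M _ _ => IsTorsionBySet A M I ∧ length A M ≤ c) fun _ _ _ _ _ h => h.2
  let _ : ∀ i, Module (A ⧸ I) (X i) := fun i => (h1 i).2.2.1.module
  refine finMany_of_fam X fun M _ _ a b l => ?_
  let _ : Module A M := Module.compHom M (Ideal.Quotient.mk I)
  have h : ∀ (a : A) (x : M), Ideal.Quotient.mk I a • x = a • x := fun _ _ => rfl
  have hf := Ideal.Quotient.mk_surjective (I := I)
  obtain ⟨i, ⟨e⟩⟩ := h2 M ((fin_iff hf h).2 a) ((indec_iff hf h).2 b)
    ⟨fun x a => by
      change (a : A) • x = 0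
      rw [← h, Ideal.Quotient.eq_zero_iff_mem.2 a.2, zero_smul],
      (len_eq hf h).trans_le l⟩
  exact ⟨i, equiv_of hf h (fun _ _ => rfl) e⟩

theorem fin_kill (H : BddA (A ⧸ I)) (H' : BF A) :
    FinMany A fun M _ _ => ∀ a ∈ I, ∀ x : M, a • x = 0 := by
  obtain ⟨c, hc⟩ := H
  refine (H' c).mono fun M _ _ a b l => ?_
  have ht : IsTorsionBySet A M I := fun x a => l a.1 a.2 x
  let _ : Module (A ⧸ I) M := ht.module
  have h : ∀ (a : A) (x : M), Ideal.Quotient.mk I a • x = a • x := fun _ _ => rfl
  have hf := Ideal.Quotient.mk_surjective (I := I)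
  exact (len_eq hf h).trans_le (hc M ((fin_iff hf h).1 a) ((indec_iff hf h).1 b))

theorem len_lt (C : Type) [CommRing C] [IsArtinianRing C] [Algebra C A] [Module.Finite C A]
    (hI : I ≠ ⊥) : length C (A ⧸ I) < length C A :=
  Submodule.length_quotient_lt (I.restrictScalars C) (by simpa using hI)

end QuotA

theorem sQuot : SQuot := fun C _ _ _ _ _ _ I _ =>
  ⟨QuotA.conn I C, QuotA.bf I, QuotA.len_lt I C, QuotA.fin_kill I⟩

end Pool.Agent.MP_bd94e8_al.H83A
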